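import Pool.Agent.Q281.QF.Two

set_option autoImplicit false

/-!
# MP_e3fe77_co: coefficient positivity of two q-factorial ratios

`A_n = (1-q) [15n]! [2n]! / ((1-q^(10n+1)) [10n]! [4n]! [3n]!)` and
`B_n = (1-q^3) (1-q^7) [15n]! [2n]! / ((1-q) (1-q^(10n+3)) [10n]! [4n]! [3n]!)` have non-negative
coefficients for every `n ≥ 1` (affirmative answer to Q1).

Method. `A_n = ∏_{10n+2 ≤ b ≤ 15n} (1-q^b) / (∏_{2 ≤ a ≤ 3n} (1-q^a) ∏_{2n < a ≤ 4n} (1-q^a))` is the Hilbert
series of a complete intersection: in the weighted polynomial ring with these weights `a` there is a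
regular sequence with these degrees `b`, because for every set `I` of variables at least `|I|` of
the degrees are in the semigroup generated by the weights of `I` (theorem `ci_main` of the starting
library). The semigroup condition is proved by Kneser type small doubling in `ℤ / M`, `M` the largest
weight in `I`, and a sharpened Landau inequality for the divisors of `10n+1`, `10n+3`. The same for
`B_n`, with the weights `1`, `1 ≤ a ≤ 3n`, `a ≠ 3, 7`, and `2n < a ≤ 4n` and the degrees `10n < b ≤ 15n`,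
`b ≠ 10n+3`; `B_1` and `B_2` are computed.
-/

namespace Pool.Agent.Results.MP_e3fe77_co.BothRatios

open Polynomial Pool.Agent.Q281.QF Pool.Agent.TH416.CI

/-- `[m]! = (1-q)(1-q^2)⋯(1-q^m)`. -/
noncomputable def qfac (m : ℕ) : Polynomial ℤ := ∏ i ∈ Finset.range m, (1 - X ^ (i + 1))

theorem qfac_eq (m : ℕ) : qfac m = ∏ b ∈ Finset.Ioc 0 m, (1 - X ^ b) := by
  induction m with
  | zero => simp [qfac]
  | succ m ih =>
    rw [qfac, Finset.prod_range_succ, ← qfac, ih, Finset.prod_Ioc_succ_top (Nat.zero_le m)]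

theorem qfac_list (m : ℕ) :
    qfac m = (((List.range m).map (fun i => i + 1)).map (fun b => (1 : Polynomial ℤ) - X ^ b)).prod := by
  rw [qfac, List.map_map, ← List.toFinset_range, List.prod_toFinset _ List.nodup_range]
  rfl

theorem qfac_mul (m k : ℕ) (h : m ≤ k) :
    qfac k = qfac m * ∏ b ∈ Finset.Ioc m k, (1 - X ^ b) := by
  rw [qfac_eq, qfac_eq, Finset.prod_Ioc_consecutive _ (Nat.zero_le _) h]

open Classical in
theorem cond (n e : ℕ) (hn : 0 < n) (he : e = 1 ∨ (e = 3 ∧ 3 ≤ n)) (S : Finset ℕ)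
    (hS : ∀ a ∈ S, 2 ≤ a ∧ a ≤ 3 * n) (h3 : e = 3 → 3 ∉ S) (h7 : e = 3 → 7 ∉ S) :
    ∀ A ⊆ S, ∀ A' ⊆ Finset.Ioc (2 * n) (4 * n), A.card + A'.card ≤
      (((Finset.Ioc (10 * n) (15 * n)).erase (10 * n + e)).filter
        (fun b => b ∈ AddSubmonoid.closure ((A ∪ A' : Finset ℕ) : Set ℕ))).card := by
  intro A hA A' hA'
  have h1 : (((Finset.Ioc (10 * n) (15 * n)).erase (10 * n + e)).filter
      (fun b => b ∈ AddSubmonoid.closure ((A ∪ A' : Finset ℕ) : Set ℕ))) = wine n e (A ∪ A') := by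
    ext x
    simp only [wine, win, Finset.mem_filter, Finset.mem_erase]
    tauto
  have hmem : ∀ a ∈ A ∪ A', 2 ≤ a ∧ a ≤ 4 * n := by
    intro a ha
    rcases Finset.mem_union.1 ha with ha | ha
    · have := hS a (hA ha)
      omega
    · have := Finset.mem_Ioc.1 (hA' ha)
      omega
  have h2 := wine_card n e hn he (A ∪ A') hmem
    (by
      intro he3 h
      rcases Finset.mem_union.1 h with h | h
      · exact h3 he3 (hA h)
      · have := Finset.mem_Ioc.1 (hA' h)
        omega)
    (by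
      intro he3 hd h
      rcases Finset.mem_union.1 h with h | h
      · exact h7 he3 (hA h)
      · have := Finset.mem_Ioc.1 (hA' h)
        have : n = 3 := by omega
        subst this
        omega)
  refine le_trans ?_ (h2.trans (le_of_eq ?_))
  · rw [← Finset.card_union_add_card_inter]
    refine Nat.add_le_add_left (Finset.card_le_card ?_) _
    intro x hx
    rw [Finset.mem_inter] at hx
    have h4 := hS x (hA hx.1)
    have h5 := Finset.mem_Ioc.1 (hA' hx.2)
    rw [Finset.mem_filter]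
    exact ⟨Finset.mem_union_left _ hx.1, by omega, by omega⟩
  · rw [← h1]

theorem partA (n : ℕ) (hn : 0 < n) :
    ∃ P : Polynomial ℤ, (∀ k, 0 ≤ P.coeff k) ∧
      (1 - X) * qfac (15 * n) * qfac (2 * n) =
        P * ((1 - X ^ (10 * n + 1)) * qfac (10 * n) * qfac (4 * n) * qfac (3 * n)) := by
  classical
  obtain ⟨P, hP, hPe⟩ := ci_two (Finset.Ioc 1 (3 * n)) (Finset.Ioc (2 * n) (4 * n))
    ((Finset.Ioc (10 * n) (15 * n)).erase (10 * n + 1)) 0
    (by intro a ha; rw [Finset.mem_Ioc] at ha; omega)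
    (by intro a ha; rw [Finset.mem_Ioc] at ha; omega)
    (by intro a ha; rw [Finset.mem_erase, Finset.mem_Ioc] at ha; omega)
    (by
      rw [Finset.card_erase_of_mem (by rw [Finset.mem_Ioc]; omega), Nat.card_Ioc, Nat.card_Ioc,
        Nat.card_Ioc]
      omega)
    (by
      intro A hA A' hA'
      convert cond n 1 hn (Or.inl rfl) (Finset.Ioc 1 (3 * n))
        (by intro a ha; rw [Finset.mem_Ioc] at ha; omega) (by omega) (by omega) A hA A' hA')
  refine ⟨P, hP, ?_⟩
  have h1 : ∏ b ∈ Finset.Ioc (10 * n) (15 * n), ((1 : Polynomial ℤ) - X ^ b) =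
      (1 - X ^ (10 * n + 1)) * ∏ b ∈ (Finset.Ioc (10 * n) (15 * n)).erase (10 * n + 1),
        ((1 : Polynomial ℤ) - X ^ b) := by
    rw [Finset.mul_prod_erase _ (fun b => (1 : Polynomial ℤ) - X ^ b)
      (by rw [Finset.mem_Ioc]; omega)]
  rw [qfac_mul (10 * n) (15 * n) (by omega), qfac_mul (2 * n) (4 * n) (by omega),
    qfac_mul 1 (3 * n) (by omega), h1, hPe]
  have h2 : qfac 1 = 1 - X := by simp [qfac]
  rw [h2]
  ring

theorem partB (n : ℕ) (hn : 3 ≤ n) :
    ∃ P : Polynomial ℤ, (∀ k, 0 ≤ P.coeff k) ∧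
      (1 - X ^ 3) * (1 - X ^ 7) * qfac (15 * n) * qfac (2 * n) =
        P * ((1 - X) * (1 - X ^ (10 * n + 3)) * qfac (10 * n) * qfac (4 * n) * qfac (3 * n)) := by
  classical
  have hm3 : 3 ∈ Finset.Ioc 1 (3 * n) := by rw [Finset.mem_Ioc]; omega
  have hm7 : 7 ∈ (Finset.Ioc 1 (3 * n)).erase 3 := by rw [Finset.mem_erase, Finset.mem_Ioc]; omega
  have hS : ∀ a ∈ ((Finset.Ioc 1 (3 * n)).erase 3).erase 7, 2 ≤ a ∧ a ≤ 3 * n := by
    intro a ha
    rw [Finset.mem_erase, Finset.mem_erase, Finset.mem_Ioc] at ha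
    omega
  obtain ⟨P, hP, hPe⟩ := ci_two (((Finset.Ioc 1 (3 * n)).erase 3).erase 7)
    (Finset.Ioc (2 * n) (4 * n))
    ((Finset.Ioc (10 * n) (15 * n)).erase (10 * n + 3)) 2
    (by intro a ha; have := hS a ha; omega)
    (by intro a ha; rw [Finset.mem_Ioc] at ha; omega)
    (by intro a ha; rw [Finset.mem_erase, Finset.mem_Ioc] at ha; omega)
    (by
      rw [Finset.card_erase_of_mem (by rw [Finset.mem_Ioc]; omega), Nat.card_Ioc,
        Finset.card_erase_of_mem hm7, Finset.card_erase_of_mem hm3, Nat.card_Ioc, Nat.card_Ioc]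
      omega)
    (by
      intro A hA A' hA'
      convert cond n 3 (by omega) (Or.inr ⟨rfl, hn⟩) _ hS (fun _ => by simp) (fun _ => by simp)
        A hA A' hA')
  refine ⟨P, hP, ?_⟩
  have h1 : ∏ b ∈ Finset.Ioc (10 * n) (15 * n), ((1 : Polynomial ℤ) - X ^ b) =
      (1 - X ^ (10 * n + 3)) * ∏ b ∈ (Finset.Ioc (10 * n) (15 * n)).erase (10 * n + 3),
        ((1 : Polynomial ℤ) - X ^ b) := by
    rw [Finset.mul_prod_erase _ (fun b => (1 : Polynomial ℤ) - X ^ b)
      (by rw [Finset.mem_Ioc]; omega)]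
  have h3 : ∏ b ∈ Finset.Ioc 1 (3 * n), ((1 : Polynomial ℤ) - X ^ b) =
      (1 - X ^ 3) * ((1 - X ^ 7) * ∏ b ∈ ((Finset.Ioc 1 (3 * n)).erase 3).erase 7,
        ((1 : Polynomial ℤ) - X ^ b)) := by
    rw [Finset.mul_prod_erase _ (fun b => (1 : Polynomial ℤ) - X ^ b) hm7,
      Finset.mul_prod_erase _ (fun b => (1 : Polynomial ℤ) - X ^ b) hm3]
  rw [qfac_mul (10 * n) (15 * n) (by omega), qfac_mul (2 * n) (4 * n) (by omega),
    qfac_mul 1 (3 * n) (by omega), h1, hPe, h3]
  have h2 : qfac 1 = 1 - X := by simp [qfac]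
  rw [h2]
  ring

/-- The coefficients of `B_1`. -/
def b1 : List ℤ := [1, 2, 4, 7, 12, 18, 27, 37, 51, 67, 87, 108, 134, 161, 191, 220, 252, 281, 311, 336, 360, 378,
  394, 401, 405, 401, 394, 378, 360, 336, 311, 281, 252, 220, 191, 161, 134, 108, 87, 67, 51, 37,
  27, 18, 12, 7, 4, 2, 1]

/-- The coefficients of `B_2`. -/
def b2 : List ℤ := [1, 2, 4, 6, 10, 16, 26, 38, 56, 78, 111, 152, 209, 278, 370, 482, 629, 806, 1032, 1300, 1637,
  2035, 2526, 3102, 3802, 4617, 5594, 6721, 8058, 9591, 11390, 13437, 15813, 18499, 21589, 25061,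
  29022, 33441, 38440, 43982, 50207, 57069, 64717, 73095, 82367, 92466, 103570, 115593, 128727,
  142865, 158210, 174636, 192355, 211217, 231439, 252843, 275655, 299663, 325099, 351718, 379756,
  408931, 439475, 471072, 503958, 537778, 572766, 608523, 645286, 682619, 720760, 759238, 798288,
  837403, 876821, 916007, 955209, 993859, 1032211, 1069676, 1106522, 1142144, 1176821, 1209939,
  1241797, 1271775, 1300193, 1326431, 1350839, 1372804, 1392702, 1409935, 1424906, 1437037,
  1446764, 1453534, 1457816, 1459077, 1457816, 1453534, 1446764, 1437037, 1424906, 1409935,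
  1392702, 1372804, 1350839, 1326431, 1300193, 1271775, 1241797, 1209939, 1176821, 1142144,
  1106522, 1069676, 1032211, 993859, 955209, 916007, 876821, 837403, 798288, 759238, 720760,
  682619, 645286, 608523, 572766, 537778, 503958, 471072, 439475, 408931, 379756, 351718, 325099,
  299663, 275655, 252843, 231439, 211217, 192355, 174636, 158210, 142865, 128727, 115593, 103570,
  92466, 82367, 73095, 64717, 57069, 50207, 43982, 38440, 33441, 29022, 25061, 21589, 18499,
  15813, 13437, 11390, 9591, 8058, 6721, 5594, 4617, 3802, 3102, 2526, 2035, 1637, 1300, 1032,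
  806, 629, 482, 370, 278, 209, 152, 111, 78, 56, 38, 26, 16, 10, 6, 4, 2, 1]

theorem partB1 :
    ∃ P : Polynomial ℤ, (∀ k, 0 ≤ P.coeff k) ∧
      (1 - X ^ 3) * (1 - X ^ 7) * qfac (15 * 1) * qfac (2 * 1) =
        P * ((1 - X) * (1 - X ^ (10 * 1 + 3)) * qfac (10 * 1) * qfac (4 * 1) * qfac (3 * 1)) := by
  refine ⟨toPoly b1, toPoly_coeff_nonneg _ (by decide +kernel), ?_⟩
  have h := congrArg toPoly (show
    mulSs ([3, 7] ++ (List.range 15).map (fun i => i + 1) ++ (List.range 2).map (fun i => i + 1)) [1] =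
    mulSs ([1, 13] ++ (List.range 10).map (fun i => i + 1) ++ (List.range 4).map (fun i => i + 1) ++
      (List.range 3).map (fun i => i + 1)) b1 by decide +kernel)
  rw [toPoly_mulSs, toPoly_mulSs] at h
  simp only [List.map_append, List.prod_append, ← qfac_list] at h
  simp only [List.map_cons, List.map_nil, List.prod_cons, List.prod_nil, toPoly, mul_one, pow_one,
    mul_zero, add_zero, C_1, one_mul] at h
  rw [h]

theorem partB2 :
    ∃ P : Polynomial ℤ, (∀ k, 0 ≤ P.coeff k) ∧
      (1 - X ^ 3) * (1 - X ^ 7) * qfac (15 * 2) * qfac (2 * 2) =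
        P * ((1 - X) * (1 - X ^ (10 * 2 + 3)) * qfac (10 * 2) * qfac (4 * 2) * qfac (3 * 2)) := by
  refine ⟨toPoly b2, toPoly_coeff_nonneg _ (by decide +kernel), ?_⟩
  have h := congrArg toPoly (show
    mulSs ([3, 7] ++ (List.range 30).map (fun i => i + 1) ++ (List.range 4).map (fun i => i + 1)) [1] =
    mulSs ([1, 23] ++ (List.range 20).map (fun i => i + 1) ++ (List.range 8).map (fun i => i + 1) ++
      (List.range 6).map (fun i => i + 1)) b2 by decide +kernel)
  rw [toPoly_mulSs, toPoly_mulSs] at h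
  simp only [List.map_append, List.prod_append, ← qfac_list] at h
  simp only [List.map_cons, List.map_nil, List.prod_cons, List.prod_nil, toPoly, mul_one, pow_one,
    mul_zero, add_zero, C_1, one_mul] at h
  rw [h]

/-- **Affirmative answer to Q1.** For every `n ≥ 1` the rational functions `A_n` and `B_n` are
polynomials with non-negative integer coefficients. -/
theorem result (n : ℕ) (hn : 0 < n) :
    (∃ P : Polynomial ℤ, (∀ k, 0 ≤ P.coeff k) ∧
      (1 - X) * qfac (15 * n) * qfac (2 * n) =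
        P * ((1 - X ^ (10 * n + 1)) * qfac (10 * n) * qfac (4 * n) * qfac (3 * n))) ∧
    (∃ P : Polynomial ℤ, (∀ k, 0 ≤ P.coeff k) ∧
      (1 - X ^ 3) * (1 - X ^ 7) * qfac (15 * n) * qfac (2 * n) =
        P * ((1 - X) * (1 - X ^ (10 * n + 3)) * qfac (10 * n) * qfac (4 * n) * qfac (3 * n))) := by
  refine ⟨partA n hn, ?_⟩
  rcases Nat.lt_or_ge n 3 with h | h
  · interval_cases n
    · exact partB1
    · exact partB2
  · exact partB n h

end Pool.Agent.Results.MP_e3fe77_co.BothRatios
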